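import Pool.Agent.helper62.VQ.SpecE

set_option autoImplicit false

open scoped MatrixGroups ContDiff Topology UpperHalfPlane
open UpperHalfPlane MeasureTheory Filter Set

namespace Pool.Agent.VQE

open Pool.Agent.RS

theorem AVE_clamp : Continuous (fun t : ℝ => max t 0) := continuous_id.max continuous_const

theorem AVE_cx {x x' : ℝ → ℝ} (hx : ∀ t : ℝ, 0 ≤ t → HasDerivAt x (x' t) t) :
    Continuous (fun t : ℝ => x (max t 0)) := by
  have h1 : ContinuousOn x (Ici 0) := fun t ht => (hx t ht).continuousAt.continuousWithinAt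
  exact h1.comp_continuous AVE_clamp (fun t => mem_Ici.2 (le_max_right _ _))

theorem AVE_cdg {b c : ℝ → ℝ} (hb : Continuous b) (hc : Continuous c)
    (hp : ∀ t, 0 ≤ 1 + b t * c t) : Continuous (fun t => dg (b t) (c t)) := by
  have h1 : ∀ t, (dg (b t) (c t)).1 =
      !![√(1 + b t * c t), b t; c t, √(1 + b t * c t)] := by
    intro t
    rw [dg, dif_pos (hp t)]
  refine continuous_induced_rng.2 ?_
  have h2 : (fun t => (dg (b t) (c t)).1) = fun t =>
      !![√(1 + b t * c t), b t; c t, √(1 + b t * c t)] := funext h1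
  change Continuous (fun t => (dg (b t) (c t)).1)
  rw [h2]
  refine continuous_matrix fun i j => ?_
  have h3 : Continuous (fun t => √(1 + b t * c t)) :=
    Real.continuous_sqrt.comp (continuous_const.add (hb.mul hc))
  fin_cases i <;> fin_cases j <;> simp <;> assumption

theorem AVE_sqrt {b c : ℝ} (hb : |b| ≤ 1 / 8) (hc : |c| ≤ 1 / 8) :
    0 ≤ 1 + b * c ∧ 9 / 10 ≤ √(1 + b * c) := by
  have h1 : |b * c| ≤ 1 / 64 := by
    rw [abs_mul]
    calc |b| * |c| ≤ 1 / 8 * (1 / 8) := mul_le_mul hb hc (abs_nonneg _) (by norm_num)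
      _ = 1 / 64 := by norm_num
  have h2 := abs_le.1 h1
  refine ⟨by linarith [h2.1], ?_⟩
  apply Real.le_sqrt_of_sq_le
  nlinarith [h2.1]

theorem AVE_den {δ a P Q s : ℝ} (_hδ0 : 0 ≤ δ) (hδ : δ ≤ 1 / 10000) (ha : 9 / 10 ≤ a)
    (hP : |P - 1| ≤ δ) (hQ : |Q| ≤ δ) (hs : |s| ≤ 1 / 4) : a * P + s * Q ≠ 0 := by
  have h1 : |s * Q| ≤ 1 / 4 * δ := by
    rw [abs_mul]
    exact mul_le_mul hs hQ (abs_nonneg _) (by norm_num)
  have h2 := (abs_le.1 h1).1
  have h3 := (abs_le.1 hP).1
  have h4 : 9 / 10 * (1 - δ) ≤ a * P :=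
    mul_le_mul ha (by linarith) (by linarith) (by linarith)
  have : 0 < a * P + s * Q := by nlinarith
  exact this.ne'

theorem AVE_exp (c T : ℝ) : ∫ t in (0 : ℝ)..T, c * Real.exp (-(9 / 10 * t)) =
    c * (10 / 9) * (1 - Real.exp (-(9 / 10 * T))) := by
  have h : ∀ t ∈ uIcc (0 : ℝ) T, HasDerivAt
      (fun t : ℝ => c * (10 / 9) * (1 - Real.exp (-(9 / 10 * t))))
      (c * Real.exp (-(9 / 10 * t))) t := by
    intro t _
    have h1 : HasDerivAt (fun t : ℝ => -(9 / 10 * t)) (-(9 / 10 * 1)) t :=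
      ((hasDerivAt_id t).const_mul (9 / 10 : ℝ)).neg
    have h2 := ((h1.exp.const_sub 1).const_mul (c * (10 / 9)))
    have e : c * (10 / 9) * -(Real.exp (-(9 / 10 * t)) * -(9 / 10 * 1)) =
        c * Real.exp (-(9 / 10 * t)) := by ring
    rw [e] at h2
    exact h2
  rw [intervalIntegral.integral_eq_sub_of_hasDerivAt h
    (Continuous.intervalIntegrable (by fun_prop) _ _)]
  simp

theorem AVE_proof (h1 : NMB_stmt) (h2 : UVX_stmt) (h3 : SYN_stmt) : AVE_stmt := by
  intro Γ δ L p q f h hδ0 hδ hL hF hW hT g x y hM T hT0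
  obtain ⟨cp, cq, hU⟩ := h2 δ p q hδ0 (by linarith) hF
  -- sizes
  have bx : ∀ t, 0 ≤ t → |x t| ≤ 1 / 8 * Real.exp (-(9 / 10 * t)) := fun t ht =>
    (hM.dec t ht).trans (mul_le_mul_of_nonneg_right hM.sml (Real.exp_pos _).le)
  have bx8 : ∀ t, 0 ≤ t → |x t| ≤ 1 / 8 := by
    intro t ht
    have e1 : Real.exp (-(9 / 10 * t)) ≤ 1 := by
      rw [← Real.exp_zero]
      exact Real.exp_le_exp.2 (by linarith)
    have := bx t ht
    nlinarith
  have by8 : ∀ t, 0 ≤ t → |y t| ≤ 1 / 8 := by
    intro t ht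
    have e1 := hM.cone t ht
    have e2 := bx8 t ht
    have e3 := abs_nonneg (x t)
    linarith
  -- clamped functions
  have cX : Continuous (fun t : ℝ => x (max t 0)) := AVE_cx hM.dx
  have cY : Continuous (fun t : ℝ => y (max t 0)) := AVE_cx hM.dy
  have cG : Continuous (fun t : ℝ => f (max t 0) g) :=
    hW.cont.comp (AVE_clamp.prodMk continuous_const)
  have hpos : ∀ t : ℝ, 0 ≤ 1 + x (max t 0) * y (max t 0) := fun t =>
    (AVE_sqrt (bx8 _ (le_max_right _ _)) (by8 _ (le_max_right _ _))).1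
  have cD : Continuous (fun t : ℝ => dg (x (max t 0)) (y (max t 0))) := AVE_cdg cX cY hpos
  have cGD : Continuous (fun t : ℝ => f (max t 0) g * dg (x (max t 0)) (y (max t 0))) := cG.mul cD
  have cA : Continuous (fun t : ℝ => √(1 + x (max t 0) * y (max t 0))) :=
    Real.continuous_sqrt.comp (continuous_const.add (cX.mul cY))
  set S : ℝ → ℝ := fun t => sg p q (f (max t 0) g) (x (max t 0)) (y (max t 0)) with hS
  have cS : Continuous S := by
    have e : S = fun t => (√(1 + x (max t 0) * y (max t 0)) * p (f (max t 0) g) -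
        (x (max t 0) + y (max t 0)) * q (f (max t 0) g)) /
        (√(1 + x (max t 0) * y (max t 0)) * p (f (max t 0) g * dg (x (max t 0)) (y (max t 0))) +
        (x (max t 0) + y (max t 0)) * q (f (max t 0) g * dg (x (max t 0)) (y (max t 0)))) := by
      funext t
      rfl
    rw [e]
    refine Continuous.div ?_ ?_ ?_
    · exact (cA.mul (cp.comp cG)).sub ((cX.add cY).mul (cq.comp cG))
    · exact (cA.mul (cp.comp cGD)).add ((cX.add cY).mul (cq.comp cGD))
    · intro t
      refine AVE_den hδ0 hδ (AVE_sqrt (bx8 _ (le_max_right _ _)) (by8 _ (le_max_right _ _))).2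
        (hF.p0 _) (hF.q0 _) ?_
      refine (abs_add_le _ _).trans ?_
      have e1 := bx8 (max t 0) (le_max_right _ _)
      have e2 := by8 (max t 0) (le_max_right _ _)
      linarith
  have hS0 : ∀ t, 0 ≤ t → S t = sg p q (f t g) (x t) (y t) := by
    intro t ht
    simp only [hS, max_eq_left ht]
  have hS1 : ∀ t, 0 ≤ t → |S t - 1| ≤ 25 / 2 * δ * |x t| := by
    intro t ht
    rw [hS0 t ht]
    have e1 := (hU (x t) (y t) 0 0 (bx8 t ht) (by8 t ht) (by norm_num) (by norm_num)).2.2.1 (f t g)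
    refine e1.trans ?_
    have e2 := hM.cone t ht
    have e3 : |x t| + |y t| ≤ 5 / 4 * |x t| := by linarith
    calc 10 * δ * (|x t| + |y t|) ≤ 10 * δ * (5 / 4 * |x t|) :=
          mul_le_mul_of_nonneg_left e3 (by linarith)
      _ = 25 / 2 * δ * |x t| := by ring
  set τ : ℝ → ℝ := fun t => ∫ s in (0 : ℝ)..t, S s with hτ
  have hτd : ∀ t, HasDerivAt τ (S t) t := fun t =>
    intervalIntegral.integral_hasDerivAt_right (cS.intervalIntegrable _ _)
      (cS.stronglyMeasurableAtFilter _ _) cS.continuousAt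
  have hτ0 : τ 0 = 0 := by simp [hτ]
  have hτs : ∀ t, 0 ≤ t → τ t = ∫ s in (0 : ℝ)..t, sg p q (f s g) (x s) (y s) := by
    intro t ht
    refine intervalIntegral.integral_congr fun s hs => ?_
    rw [uIcc_of_le ht] at hs
    exact hS0 s hs.1
  set g2 : SL(2, ℝ) := g * dg (x 0) (y 0) with hg2
  have hsyn : ∀ t, 0 ≤ t → f (τ t) g2 = f t g * dg (x t) (y t) := by
    intro t ht
    rw [hτs t ht]
    exact h3 δ p q f hδ0 hδ hF hW g x y hM t ht
  have cH : Continuous (fun t : ℝ => h (f t g2)) :=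
    hT.cont.comp (hW.cont.comp (continuous_id.prodMk continuous_const))
  have cH1 : Continuous (fun t : ℝ => h (f t g)) :=
    hT.cont.comp (hW.cont.comp (continuous_id.prodMk continuous_const))
  have cτ : Continuous τ := continuous_iff_continuousAt.2 fun t => (hτd t).continuousAt
  -- change of variables
  have hcv : ∫ t in (0 : ℝ)..T, h (f (τ t) g2) * S t = ∫ s in (0 : ℝ)..τ T, h (f s g2) := by
    have e := intervalIntegral.integral_comp_mul_deriv (a := (0 : ℝ)) (b := T) (f := τ) (f' := S)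
      (g := fun t : ℝ => h (f t g2)) (fun t _ => hτd t) cS.continuousOn cH
    rw [hτ0] at e
    exact e
  -- the three estimates
  set c : ℝ := (L + 25 / 2 * δ) * (1 / 8) with hc
  have hc0 : 0 ≤ c := by positivity
  have E1 : |(∫ t in (0 : ℝ)..T, h (f (τ t) g2) * S t) - ∫ t in (0 : ℝ)..T, h (f t g)| ≤
      c * (10 / 9) := by
    have cc : Continuous (fun t => h (f (τ t) g2) * S t) := (cH.comp cτ).mul cS
    rw [← intervalIntegral.integral_sub (cc.intervalIntegrable _ _) (cH1.intervalIntegrable _ _)]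
    rw [← Real.norm_eq_abs]
    refine (intervalIntegral.norm_integral_le_of_norm_le
      (g := fun t => c * Real.exp (-(9 / 10 * t))) hT0.le ?_ ?_).trans ?_
    · refine Filter.Eventually.of_forall fun t ht => ?_
      have ht0 : 0 ≤ t := ht.1.le
      rw [Real.norm_eq_abs, hsyn t ht0]
      have a1 : |h (f t g * dg (x t) (y t)) - h (f t g)| ≤ L * |x t| := by
        refine (hT.lip (f t g) (dg (x t) (y t))).trans (mul_le_mul_of_nonneg_left ?_ hL)
        refine (h1.2.2.2.2.2.2.2.1 (x t) (y t) (bx8 t ht0) (by8 t ht0)).trans ?_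
        refine max_le le_rfl ?_
        have := hM.cone t ht0
        have := abs_nonneg (x t)
        linarith
      have a2 : |h (f t g * dg (x t) (y t)) * (S t - 1)| ≤ 25 / 2 * δ * |x t| := by
        rw [abs_mul]
        calc |h (f t g * dg (x t) (y t))| * |S t - 1| ≤ 1 * |S t - 1| :=
              mul_le_mul_of_nonneg_right (hT.bd _) (abs_nonneg _)
          _ = |S t - 1| := one_mul _
          _ ≤ _ := hS1 t ht0
      have e : h (f t g * dg (x t) (y t)) * S t - h (f t g) =
          (h (f t g * dg (x t) (y t)) - h (f t g)) + h (f t g * dg (x t) (y t)) * (S t - 1) := by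
        ring
      rw [e]
      refine (abs_add_le _ _).trans ((add_le_add a1 a2).trans ?_)
      have a3 := bx t ht0
      calc L * |x t| + 25 / 2 * δ * |x t| = (L + 25 / 2 * δ) * |x t| := by ring
        _ ≤ (L + 25 / 2 * δ) * (1 / 8 * Real.exp (-(9 / 10 * t))) :=
          mul_le_mul_of_nonneg_left a3 (by positivity)
        _ = c * Real.exp (-(9 / 10 * t)) := by rw [hc]; ring
    · exact Continuous.intervalIntegrable (by fun_prop) _ _
    · rw [AVE_exp]
      have e1 : 1 - Real.exp (-(9 / 10 * T)) ≤ 1 := by linarith [Real.exp_pos (-(9 / 10 * T))]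
      have e2 : c * (10 / 9) * (1 - Real.exp (-(9 / 10 * T))) ≤ c * (10 / 9) * 1 :=
        mul_le_mul_of_nonneg_left e1 (by positivity)
      linarith
  have E2 : |τ T - T| ≤ 25 / 2 * δ * (1 / 8) * (10 / 9) := by
    have e0 : τ T - T = ∫ t in (0 : ℝ)..T, (S t - 1) := by
      rw [intervalIntegral.integral_sub (cS.intervalIntegrable _ _)
        (continuous_const.intervalIntegrable _ _)]
      simp [hτ]
    rw [e0, ← Real.norm_eq_abs]
    refine (intervalIntegral.norm_integral_le_of_norm_le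
      (g := fun t => 25 / 2 * δ * (1 / 8) * Real.exp (-(9 / 10 * t))) hT0.le ?_ ?_).trans ?_
    · refine Filter.Eventually.of_forall fun t ht => ?_
      have ht0 : 0 ≤ t := ht.1.le
      rw [Real.norm_eq_abs]
      refine (hS1 t ht0).trans ?_
      calc 25 / 2 * δ * |x t| ≤ 25 / 2 * δ * (1 / 8 * Real.exp (-(9 / 10 * t))) :=
            mul_le_mul_of_nonneg_left (bx t ht0) (by positivity)
        _ = _ := by ring
    · exact Continuous.intervalIntegrable (by fun_prop) _ _
    · rw [AVE_exp]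
      have e1 : 1 - Real.exp (-(9 / 10 * T)) ≤ 1 := by linarith [Real.exp_pos (-(9 / 10 * T))]
      have e2 : 25 / 2 * δ * (1 / 8) * (10 / 9) * (1 - Real.exp (-(9 / 10 * T))) ≤
          25 / 2 * δ * (1 / 8) * (10 / 9) * 1 :=
        mul_le_mul_of_nonneg_left e1 (by positivity)
      linarith
  have E3 : |∫ s in (τ T)..T, h (f s g2)| ≤ |T - τ T| := by
    have e := intervalIntegral.norm_integral_le_of_norm_le_const (a := τ T) (b := T) (C := 1)
      (f := fun s => h (f s g2)) (fun s _ => by rw [Real.norm_eq_abs]; exact hT.bd _)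
    rw [Real.norm_eq_abs, one_mul] at e
    exact e
  have E4 : (∫ s in (0 : ℝ)..T, h (f s g2)) =
      (∫ s in (0 : ℝ)..τ T, h (f s g2)) + ∫ s in (τ T)..T, h (f s g2) :=
    (intervalIntegral.integral_add_adjacent_intervals (cH.intervalIntegrable _ _)
      (cH.intervalIntegrable _ _)).symm
  have E5 : |(∫ s in (0 : ℝ)..T, h (f s g2)) - ∫ s in (0 : ℝ)..T, h (f s g)| ≤ L + 1 := by
    rw [E4, ← hcv]
    have e : ((∫ t in (0 : ℝ)..T, h (f (τ t) g2) * S t) + ∫ s in (τ T)..T, h (f s g2)) -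
        (∫ s in (0 : ℝ)..T, h (f s g)) =
        ((∫ t in (0 : ℝ)..T, h (f (τ t) g2) * S t) - ∫ s in (0 : ℝ)..T, h (f s g)) +
        ∫ s in (τ T)..T, h (f s g2) := by ring
    rw [e]
    refine (abs_add_le _ _).trans ?_
    rw [abs_sub_comm T] at E3
    have : c * (10 / 9) + 25 / 2 * δ * (1 / 8) * (10 / 9) ≤ L + 1 := by
      rw [hc]
      nlinarith
    linarith
  rw [avf, avf, ← mul_sub, abs_mul, abs_of_pos (inv_pos.2 hT0), mul_comm, ← div_eq_mul_inv]
  exact div_le_div_of_nonneg_right E5 hT0.le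

end Pool.Agent.VQE
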